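import Pool.Agent.E8helper29.Zn.Stm3
import Pool.Agent.E8helper29.Zn.P25

/-!
Project ZU, piece 6: the norm as a mixture of `|⟨·,u⟩|` over unit vectors, with a bound for the
bands.
-/

set_option autoImplicit false

namespace Pool.Agent.E8helper25.Zu

open MeasureTheory ProbabilityTheory Pool.Agent.Helper649.Zono Pool.Agent.E8helper29.Zn
open scoped RealInnerProductSpace Nat NNReal ENNReal

/-- small interval bound for the standard normal law -/
lemma gauss_small (r : ℝ) :
    gaussianReal 0 1 {x : ℝ | |x| ≤ r} ≤ ENNReal.ofReal r := by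
  rw [gaussianReal_apply 0 one_ne_zero]
  have h1 : ∀ x : ℝ, gaussianPDF 0 1 x ≤ ENNReal.ofReal (1 / 2) := by
    intro x
    rw [gaussianPDF]
    apply ENNReal.ofReal_le_ofReal
    rw [gaussianPDFReal]
    have h2 : Real.exp (-(x - 0) ^ 2 / (2 * ((1 : ℝ≥0) : ℝ))) ≤ 1 := by
      rw [Real.exp_le_one_iff]
      have : 0 ≤ (x - 0) ^ 2 := sq_nonneg _
      simp only [NNReal.coe_one]
      linarith [this]
    have h3 : (Real.sqrt (2 * Real.pi * ((1 : ℝ≥0) : ℝ)))⁻¹ ≤ 1 / 2 := by
      rw [NNReal.coe_one, mul_one, ← one_div]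
      have h4 : (2 : ℝ) ≤ Real.sqrt (2 * Real.pi) := by
        apply Real.le_sqrt_of_sq_le
        nlinarith [Real.pi_gt_three]
      exact one_div_le_one_div_of_le (by norm_num) h4
    calc (Real.sqrt (2 * Real.pi * ((1 : ℝ≥0) : ℝ)))⁻¹ *
          Real.exp (-(x - 0) ^ 2 / (2 * ((1 : ℝ≥0) : ℝ)))
        ≤ 1 / 2 * 1 := mul_le_mul h3 h2 (Real.exp_pos _).le (by norm_num)
      _ = 1 / 2 := by norm_num
  calc ∫⁻ x in {x : ℝ | |x| ≤ r}, gaussianPDF 0 1 x
      ≤ ∫⁻ _ in {x : ℝ | |x| ≤ r}, ENNReal.ofReal (1 / 2) := lintegral_mono h1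
    _ = ENNReal.ofReal (1 / 2) * volume {x : ℝ | |x| ≤ r} := by
        rw [setLIntegral_const]
    _ ≤ ENNReal.ofReal r := by
        have h5 : {x : ℝ | |x| ≤ r} = Set.Icc (-r) r := by
          ext x
          simp [abs_le]
        rw [h5, Real.volume_Icc, ← ENNReal.ofReal_mul (by norm_num)]
        apply ENNReal.ofReal_le_ofReal
        linarith

/-- two orthogonal coordinates -/
lemma pair_small {n : ℕ} (v w : E n) (hv : ‖v‖ = 1) (hw : ‖w‖ = 1) (h : (⟪v, w⟫ : ℝ) = 0)
    (c : ℝ) (hc : 0 ≤ c) :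
    (stdGaussian (E n)) {g | |(⟪v, g⟫ : ℝ)| ≤ c * |(⟪w, g⟫ : ℝ)|} ≤ ENNReal.ofReal (c * am 1) := by
  have mv : Measurable (fun g : E n => (⟪v, g⟫ : ℝ)) := by fun_prop
  have mw : Measurable (fun g : E n => (⟪w, g⟫ : ℝ)) := by fun_prop
  have hmv : (stdGaussian (E n)).map (fun g => ⟪v, g⟫) = gaussianReal 0 1 := by
    rw [map_inner]
    congr 1
    ext
    simp [hv]
  have hmw : (stdGaussian (E n)).map (fun g => ⟪w, g⟫) = gaussianReal 0 1 := by
    rw [map_inner]
    congr 1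
    ext
    simp [hw]
  have hprod : (stdGaussian (E n)).map (fun g => ((⟪v, g⟫ : ℝ), (⟪w, g⟫ : ℝ))) =
      (gaussianReal 0 1).prod (gaussianReal 0 1) := by
    have h1 := (indepFun_iff_map_prod_eq_prod_map_map mv.aemeasurable mw.aemeasurable).1
      (indep_inner v w h)
    rw [hmv, hmw] at h1
    exact h1
  have hS : MeasurableSet {p : ℝ × ℝ | |p.1| ≤ c * |p.2|} :=
    measurableSet_le (by fun_prop) (by fun_prop)
  have e1 : (stdGaussian (E n)) {g | |(⟪v, g⟫ : ℝ)| ≤ c * |(⟪w, g⟫ : ℝ)|}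
      = ((gaussianReal 0 1).prod (gaussianReal 0 1)) {p : ℝ × ℝ | |p.1| ≤ c * |p.2|} := by
    rw [← hprod, Measure.map_apply (mv.prodMk mw) hS]
    rfl
  rw [e1, Measure.prod_apply_symm hS]
  have hi : Integrable (fun y : ℝ => c * |y| ^ 1) (gaussianReal 0 1) := by
    have h1 := memLp_abs_real833.integrable (by norm_num : (1 : ℝ≥0∞) ≤ 2)
    simpa using h1.const_mul c
  calc ∫⁻ y, gaussianReal 0 1 ((fun x => (x, y)) ⁻¹' {p : ℝ × ℝ | |p.1| ≤ c * |p.2|})
        ∂(gaussianReal 0 1)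
      ≤ ∫⁻ y, ENNReal.ofReal (c * |y| ^ 1) ∂(gaussianReal 0 1) := by
        refine lintegral_mono fun y => ?_
        rw [pow_one]
        exact gauss_small (c * |y|)
    _ = ENNReal.ofReal (∫ y, c * |y| ^ 1 ∂(gaussianReal 0 1)) := by
        rw [ofReal_integral_eq_lintegral_ofReal hi]
        exact Filter.Eventually.of_forall fun y => by positivity
    _ = ENNReal.ofReal (c * am 1) := by
        rw [integral_const_mul, am]

/-- the band event does not depend on the unit vector -/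
lemma band_rad {n : ℕ} (v w : E n) (h : ‖v‖ = ‖w‖) (δ : ℝ) :
    (stdGaussian (E n)).real {g | |(⟪v, nor g⟫ : ℝ)| ≤ δ}
      = (stdGaussian (E n)).real {g | |(⟪w, nor g⟫ : ℝ)| ≤ δ} := by
  classical
  have h1 := p7_radial (fun a b => if |b⁻¹ * a| ≤ δ then (1 : ℝ) else 0) v w h
  have h2 : ∀ y : E n, (stdGaussian (E n)).real {g | |(⟪y, nor g⟫ : ℝ)| ≤ δ}
      = ∫ g, (if |‖g‖⁻¹ * (⟪y, g⟫ : ℝ)| ≤ δ then (1 : ℝ) else 0) ∂(stdGaussian (E n)) := by
    intro y
    have hm : Measurable fun g : E n => |(⟪y, nor g⟫ : ℝ)| := by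
      unfold nor; fun_prop
    have hS : MeasurableSet {g : E n | |(⟪y, nor g⟫ : ℝ)| ≤ δ} := measurableSet_le hm (by fun_prop)
    rw [← integral_indicator_one hS]
    refine integral_congr_ae (Filter.Eventually.of_forall fun g => ?_)
    simp only [Set.indicator_apply, Set.mem_ofPred_eq, nor, inner_smul_right, Pi.one_apply]
  rw [h2, h2]
  exact h1

lemma band_small {n : ℕ} (hn : 1 ≤ n) (v : E n) (hv : ‖v‖ = 1) (δ : ℝ) (hδ : 0 < δ)
    (h1 : δ * Real.sqrt n < 1) :
    (stdGaussian (E n)).real {g | |(⟪v, nor g⟫ : ℝ)| ≤ δ} ≤ n * (δ * Real.sqrt n * am 1) := by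
  classical
  set i0 : Fin n := ⟨0, hn⟩ with hi0
  have he : ∀ i : Fin n, ‖(EuclideanSpace.single i (1 : ℝ) : E n)‖ = 1 := fun i => by simp
  rw [band_rad v (EuclideanSpace.single i0 (1 : ℝ)) (by rw [hv, he]) δ]
  have ha := am_one_pos
  have hc : 0 ≤ δ * Real.sqrt n := by positivity
  have hsub : {g : E n | |(⟪EuclideanSpace.single i0 (1 : ℝ), nor g⟫ : ℝ)| ≤ δ} ⊆
      {g : E n | ¬ (g ≠ 0)} ∪ ⋃ i ∈ (Finset.univ.erase i0 : Finset (Fin n)),
        {g : E n | |(⟪EuclideanSpace.single i0 (1 : ℝ), g⟫ : ℝ)| ≤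
          δ * Real.sqrt n * |(⟪EuclideanSpace.single i (1 : ℝ), g⟫ : ℝ)|} := by
    intro g hg
    by_cases hg0 : g = 0
    · left
      simp [hg0]
    right
    have hgn : 0 < ‖g‖ := norm_pos_iff.2 hg0
    simp only [Set.mem_ofPred_eq, nor, inner_smul_right, p7_coord, abs_mul, abs_inv, abs_norm] at hg
    have hg1 : |g i0| ≤ δ * ‖g‖ := by
      rwa [inv_mul_le_iff₀ hgn, mul_comm] at hg
    obtain ⟨i, -, hi⟩ := Finset.exists_max_image (Finset.univ : Finset (Fin n)) (fun i => |g i|)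
      ⟨i0, Finset.mem_univ _⟩
    have hsq : ‖g‖ ^ 2 ≤ n * |g i| ^ 2 := by
      rw [p7_norm_sq]
      calc ∑ j : Fin n, (⟪EuclideanSpace.single j (1 : ℝ), g⟫ : ℝ) ^ 2
          ≤ ∑ _j : Fin n, |g i| ^ 2 := by
            refine Finset.sum_le_sum fun j _ => ?_
            rw [p7_coord, ← sq_abs]
            exact pow_le_pow_left₀ (abs_nonneg _) (hi j (Finset.mem_univ _)) 2
        _ = n * |g i| ^ 2 := by simp
    have hgi : ‖g‖ ≤ Real.sqrt n * |g i| := by
      have h2 : (Real.sqrt n * |g i|) ^ 2 = n * |g i| ^ 2 := by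
        rw [mul_pow, Real.sq_sqrt (by positivity)]
      refine le_of_sq_le_sq ?_ (by positivity)
      rw [h2]
      exact hsq
    have hfin : |g i0| ≤ δ * Real.sqrt n * |g i| := by
      calc |g i0| ≤ δ * ‖g‖ := hg1
        _ ≤ δ * (Real.sqrt n * |g i|) := mul_le_mul_of_nonneg_left hgi hδ.le
        _ = _ := by ring
    have hgi0 : 0 < |g i| := by
      by_contra h
      have h3 : |g i| = 0 := le_antisymm (not_lt.1 h) (abs_nonneg _)
      rw [h3, mul_zero] at hgi
      linarith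
    have hne : i ≠ i0 := by
      rintro h
      rw [h] at hfin hgi0
      nlinarith
    simp only [Set.mem_iUnion, Set.mem_ofPred_eq, p7_coord]
    exact ⟨i, Finset.mem_erase.2 ⟨hne, Finset.mem_univ _⟩, hfin⟩
  have h0 : (stdGaussian (E n)) {g : E n | ¬ (g ≠ 0)} = 0 := ae_iff.1 (ae_ne_zero hn)
  have hle : (stdGaussian (E n)) {g : E n | |(⟪EuclideanSpace.single i0 (1 : ℝ), nor g⟫ : ℝ)| ≤ δ}
      ≤ ENNReal.ofReal (n * (δ * Real.sqrt n * am 1)) := by
    calc (stdGaussian (E n)) {g : E n | |(⟪EuclideanSpace.single i0 (1 : ℝ), nor g⟫ : ℝ)| ≤ δ}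
        ≤ (stdGaussian (E n)) ({g : E n | ¬ (g ≠ 0)} ∪
          ⋃ i ∈ (Finset.univ.erase i0 : Finset (Fin n)),
          {g : E n | |(⟪EuclideanSpace.single i0 (1 : ℝ), g⟫ : ℝ)| ≤
            δ * Real.sqrt n * |(⟪EuclideanSpace.single i (1 : ℝ), g⟫ : ℝ)|}) := measure_mono hsub
      _ ≤ (stdGaussian (E n)) {g : E n | ¬ (g ≠ 0)} + (stdGaussian (E n))
          (⋃ i ∈ (Finset.univ.erase i0 : Finset (Fin n)),
          {g : E n | |(⟪EuclideanSpace.single i0 (1 : ℝ), g⟫ : ℝ)| ≤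
            δ * Real.sqrt n * |(⟪EuclideanSpace.single i (1 : ℝ), g⟫ : ℝ)|}) := measure_union_le _ _
      _ ≤ 0 + ∑ i ∈ (Finset.univ.erase i0 : Finset (Fin n)), (stdGaussian (E n))
          {g : E n | |(⟪EuclideanSpace.single i0 (1 : ℝ), g⟫ : ℝ)| ≤
            δ * Real.sqrt n * |(⟪EuclideanSpace.single i (1 : ℝ), g⟫ : ℝ)|} := by
          rw [h0]
          exact add_le_add le_rfl (measure_biUnion_finset_le _ _)
      _ ≤ 0 + ∑ _i ∈ (Finset.univ.erase i0 : Finset (Fin n)),
          ENNReal.ofReal (δ * Real.sqrt n * am 1) := by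
          refine add_le_add le_rfl (Finset.sum_le_sum fun i hi => ?_)
          refine pair_small _ _ (he i0) (he i) ?_ _ hc
          rw [p7_coord]
          simp [(Finset.mem_erase.1 hi).1.symm]
      _ ≤ ENNReal.ofReal (n * (δ * Real.sqrt n * am 1)) := by
          rw [zero_add, Finset.sum_const, nsmul_eq_mul,
            ENNReal.ofReal_mul (p := (n : ℝ)) (q := δ * Real.sqrt n * am 1) (by positivity),
            ENNReal.ofReal_natCast]
          refine mul_le_mul' ?_ le_rfl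
          have : (Finset.univ.erase i0 : Finset (Fin n)).card ≤ n := by
            calc (Finset.univ.erase i0 : Finset (Fin n)).card ≤ (Finset.univ : Finset (Fin n)).card :=
                  Finset.card_le_card (Finset.erase_subset _ _)
              _ = n := by simp
          exact_mod_cast this
  rw [measureReal_def]
  exact ENNReal.toReal_le_of_le_ofReal (by positivity) hle

theorem u6 : StmR1 := by
  have ha := am_one_pos
  refine ⟨1 + 1 / am 1, by positivity, fun n hn => ?_⟩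
  have hn1 : (1 : ℝ) ≤ n := by exact_mod_cast hn
  have hn0 : (0 : ℝ) < n := by linarith
  set e : E n := EuclideanSpace.single ⟨0, hn⟩ (1 : ℝ) with he
  have hen : ‖e‖ = 1 := by simp [he]
  clear_value e
  obtain ⟨R, hR⟩ : ∃ R : ℝ, R = ∫ g, ‖g‖ ∂(stdGaussian (E n)) := ⟨_, rfl⟩
  have hR0 : 0 ≤ R := by rw [hR]; exact integral_nonneg fun g => norm_nonneg g
  have h1 : am 1 = sm e 1 * R := by
    have := sm_am hn hen 1
    simpa [← hR] using this
  have hRle : R ≤ Real.sqrt n := by rw [hR]; exact norm_int_le' n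
  have hRne : R ≠ 0 := by
    rintro h
    rw [h, mul_zero] at h1
    linarith
  have hsm : sm e 1 ≠ 0 := by
    intro h
    rw [h, zero_mul] at h1
    linarith
  obtain ⟨κ, hκ⟩ : ∃ κ : ℝ, κ = R / am 1 := ⟨_, rfl⟩
  have hκ0 : 0 ≤ κ := by rw [hκ]; positivity
  have hκle : κ ≤ Real.sqrt n * (1 / am 1) := by
    rw [hκ, div_eq_mul_one_div]
    exact mul_le_mul_of_nonneg_right hRle (by positivity)
  have hint : ∀ f : E n → ℝ, Measurable f →
      ∫ u, f u ∂(ENNReal.ofReal κ • (stdGaussian (E n)).map nor)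
        = κ * ∫ g, f (nor g) ∂(stdGaussian (E n)) := by
    intro f hf
    rw [integral_smul_measure, ENNReal.toReal_ofReal hκ0, smul_eq_mul,
      integral_map (nor_measurable n).aemeasurable hf.aestronglyMeasurable]
  have hset : ∀ S : Set (E n), MeasurableSet S →
      (ENNReal.ofReal κ • (stdGaussian (E n)).map nor).real S
        = κ * (stdGaussian (E n)).real (nor ⁻¹' S) := by
    intro S hS
    rw [measureReal_def, Measure.smul_apply, smul_eq_mul, ENNReal.toReal_mul,
      ENNReal.toReal_ofReal hκ0, Measure.map_apply (nor_measurable n) hS, measureReal_def]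
  have hsqn : Real.sqrt n ≤ n := by
    rw [Real.sqrt_le_left (by positivity)]
    nlinarith
  have hsq2 : Real.sqrt n * Real.sqrt n = n := Real.mul_self_sqrt hn0.le
  refine ⟨ENNReal.ofReal κ • (stdGaussian (E n)).map nor,
    Measure.smul_finite _ ENNReal.ofReal_ne_top, ?_, ?_, ?_, ?_⟩
  · apply Measure.ae_smul_measure
    have hms : MeasurableSet {u : E n | ‖u‖ = 1} := measurableSet_eq_fun (by fun_prop) (by fun_prop)
    rw [ae_map_iff (nor_measurable n).aemeasurable hms]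
    filter_upwards [ae_ne_zero hn] with g hg
    exact nor_norm hg
  · intro z
    have hzm : Measurable fun u : E n => |(⟪z, u⟫ : ℝ)| := by fun_prop
    rw [hint _ hzm]
    have h3 := sm_hom hen 1 z
    simp only [pow_one] at h3
    rw [h3, hκ, h1]
    field_simp
  · rw [hset _ MeasurableSet.univ, Set.preimage_univ, probReal_univ, mul_one]
    calc κ ≤ Real.sqrt n * (1 / am 1) := hκle
      _ ≤ n * (1 / am 1) := mul_le_mul_of_nonneg_right hsqn (by positivity)
      _ ≤ (1 + 1 / am 1) * n := by nlinarith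
  · intro v hv δ hδ
    have hS : MeasurableSet {u : E n | |(⟪v, u⟫ : ℝ)| ≤ δ} :=
      measurableSet_le (by fun_prop) (by fun_prop)
    rw [hset _ hS]
    have hsn : 0 < Real.sqrt n := Real.sqrt_pos.2 hn0
    by_cases hcase : δ * Real.sqrt n < 1
    · have h2 := band_small hn v hv δ hδ hcase
      have h3 : (stdGaussian (E n)).real (nor ⁻¹' {u : E n | |(⟪v, u⟫ : ℝ)| ≤ δ})
          ≤ n * (δ * Real.sqrt n * am 1) := h2
      calc κ * (stdGaussian (E n)).real (nor ⁻¹' {u : E n | |(⟪v, u⟫ : ℝ)| ≤ δ})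
          ≤ (Real.sqrt n * (1 / am 1)) * (n * (δ * Real.sqrt n * am 1)) :=
            mul_le_mul hκle h3 measureReal_nonneg (by positivity)
        _ = (Real.sqrt n * Real.sqrt n) * n * δ := by field_simp
        _ = 1 * ((n : ℝ) ^ 2 * δ) := by rw [hsq2]; ring
        _ ≤ (1 + 1 / am 1) * ((n : ℝ) ^ 2 * δ) := by
            refine mul_le_mul_of_nonneg_right ?_ (by positivity)
            have : 0 < 1 / am 1 := by positivity
            linarith
        _ = _ := by ring
    · have h4 : (1 : ℝ) ≤ δ * Real.sqrt n := not_lt.1 hcase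
      calc κ * (stdGaussian (E n)).real (nor ⁻¹' {u : E n | |(⟪v, u⟫ : ℝ)| ≤ δ})
          ≤ κ * 1 := mul_le_mul_of_nonneg_left measureReal_le_one hκ0
        _ ≤ (Real.sqrt n * (1 / am 1)) * (δ * Real.sqrt n) :=
            mul_le_mul hκle h4 (by norm_num) (by positivity)
        _ = (Real.sqrt n * Real.sqrt n) * (1 / am 1) * δ := by ring
        _ = (1 / am 1) * (n * δ) := by rw [hsq2]; ring
        _ ≤ (1 + 1 / am 1) * ((n : ℝ) ^ 2 * δ) := by
            refine mul_le_mul (by linarith) ?_ (by positivity) (by positivity)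
            refine mul_le_mul_of_nonneg_right ?_ hδ.le
            nlinarith
        _ = _ := by ring

end Pool.Agent.E8helper25.Zu
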